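import Pool.Agent.FLX.Stmts

/-!
# DER: first and second derivatives of the moved bump functions
-/

set_option autoImplicit false

open scoped InnerProductSpace Topology ContDiff Manifold
open MeasureTheory Filter Set

noncomputable section

namespace Pool.Agent.FLX.H59

open Pool.Agent.Helper42_Paneitz Pool.Agent.Helper82_Vir

theorem sm_comp_at {f : S4 → ℝ} (hf : Sm f) {φ : ℝ → ℝ} (hφ : ∀ x : S4, ContDiffAt ℝ ∞ φ (f x)) :
    Sm (fun x => φ (f x)) := by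
  intro y hy
  have h1 : radialExt (fun x => φ (f x)) =ᶠ[𝓝 y] fun z => φ (radialExt f z) := by
    filter_upwards [eventually_ne_zero hy] with z hz
    simp only [radialExt_apply _ hz]
  have h2 : ContDiffAt ℝ ∞ φ (radialExt f y) := by
    rw [radialExt_apply _ hy]
    exact hφ _
  exact (h2.comp y (hf y hy)).congr_of_eventuallyEq h1

theorem dd_comp_at {f : S4 → ℝ} (hf : Sm f) {φ : ℝ → ℝ} {φ' : ℝ} {x : S4}
    (hφ : HasDerivAt φ φ' (f x)) (v : E5) :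
    dd (fun z => φ (f z)) x v = φ' * dd f x v := by
  have hx := S4_ne_zero x
  have h1 : radialExt (fun x => φ (f x)) =ᶠ[𝓝 (x : E5)] fun z => φ (radialExt f z) := by
    filter_upwards [eventually_ne_zero hx] with z hz
    simp only [radialExt_apply _ hz]
  have h2 : HasFDerivAt (radialExt f) (fderiv ℝ (radialExt f) (x : E5)) (x : E5) :=
    (sm_diffAt hf hx).hasFDerivAt
  have h3 : HasDerivAt φ φ' (radialExt f (x : E5)) := by
    rw [radialExt_coe]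
    exact hφ
  have h4 := h3.comp_hasFDerivAt (x : E5) h2
  unfold dd
  rw [h1.fderiv_eq]
  have h5 : fderiv ℝ (fun z => φ (radialExt f z)) (x : E5) =
      φ' • fderiv ℝ (radialExt f) (x : E5) := h4.fderiv
  rw [h5]
  rfl

/-- the moved coordinate -/
def rr (s t : ℝ) : ℝ := (t - s) / (1 - s * t)

theorem hasDerivAt_den (s t : ℝ) : HasDerivAt (fun t => 1 - s * t) (-s) t := by
  have h := ((hasDerivAt_id t).const_mul s).const_sub 1
  have h2 : -(s * 1) = -s := by ring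
  rw [h2] at h
  exact h

theorem hasDerivAt_rr {s t : ℝ} (h : 1 - s * t ≠ 0) :
    HasDerivAt (rr s) ((1 - s ^ 2) / (1 - s * t) ^ 2) t := by
  have h1 : HasDerivAt (fun t => t - s) 1 t := (hasDerivAt_id t).sub_const s
  have h3 := h1.div (hasDerivAt_den s t) h
  refine h3.congr_deriv ?_
  congr 1
  ring

theorem hasDerivAt_rr1 {s t : ℝ} (h : 1 - s * t ≠ 0) :
    HasDerivAt (fun t => (1 - s ^ 2) / (1 - s * t) ^ 2) (2 * s * (1 - s ^ 2) / (1 - s * t) ^ 3) t := by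
  have h3 := (hasDerivAt_const t (1 - s ^ 2)).div ((hasDerivAt_den s t).pow 2) (pow_ne_zero 2 h)
  refine h3.congr_deriv ?_
  simp only [Pi.pow_apply]
  field_simp
  ring

theorem contDiffAt_rr {s t : ℝ} (h : 1 - s * t ≠ 0) : ContDiffAt ℝ ∞ (rr s) t := by
  unfold rr
  have h1 : ContDiffAt ℝ ∞ (fun t : ℝ => t - s) t := contDiffAt_id.sub contDiffAt_const
  have h2 : ContDiffAt ℝ ∞ (fun t : ℝ => 1 - s * t) t :=
    contDiffAt_const.sub (contDiffAt_const.mul contDiffAt_id)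
  exact h1.div h2 h

/-- first derivative of the profile -/
def F1 (β : ℝ → ℝ) (s t : ℝ) : ℝ := deriv β (rr s t) * ((1 - s ^ 2) / (1 - s * t) ^ 2)

/-- second derivative of the profile -/
def F2 (β : ℝ → ℝ) (s t : ℝ) : ℝ :=
  deriv (deriv β) (rr s t) * ((1 - s ^ 2) / (1 - s * t) ^ 2) * ((1 - s ^ 2) / (1 - s * t) ^ 2) +
    deriv β (rr s t) * (2 * s * (1 - s ^ 2) / (1 - s * t) ^ 3)

section Prof

variable {β : ℝ → ℝ} (hβ : ContDiff ℝ ∞ β) {s t : ℝ} (h : 1 - s * t ≠ 0)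

include hβ

theorem cd_deriv : ContDiff ℝ ∞ (deriv β) := (contDiff_infty_iff_deriv.1 hβ).2

theorem hd_beta (r : ℝ) : HasDerivAt β (deriv β r) r :=
  ((hβ.differentiable (by simp)) r).hasDerivAt

include h

theorem hasDerivAt_prof : HasDerivAt (fun t => β (rr s t)) (F1 β s t) t :=
  (hd_beta hβ (rr s t)).comp t (hasDerivAt_rr h)

theorem hasDerivAt_F1 : HasDerivAt (F1 β s) (F2 β s t) t := by
  have h1 : HasDerivAt (fun t => deriv β (rr s t))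
      (deriv (deriv β) (rr s t) * ((1 - s ^ 2) / (1 - s * t) ^ 2)) t :=
    (hd_beta (cd_deriv hβ) (rr s t)).comp t (hasDerivAt_rr h)
  exact h1.mul (hasDerivAt_rr1 h)

theorem contDiffAt_prof : ContDiffAt ℝ ∞ (fun t => β (rr s t)) t :=
  hβ.contDiffAt.comp t (contDiffAt_rr h)

theorem contDiffAt_F1 : ContDiffAt ℝ ∞ (F1 β s) t := by
  unfold F1
  have h1 : ContDiffAt ℝ ∞ (fun t => deriv β (rr s t)) t :=
    (cd_deriv hβ).contDiffAt.comp t (contDiffAt_rr h)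
  have h2 : ContDiffAt ℝ ∞ (fun t : ℝ => 1 - s * t) t :=
    contDiffAt_const.sub (contDiffAt_const.mul contDiffAt_id)
  have h3 : ContDiffAt ℝ ∞ (fun t : ℝ => (1 - s ^ 2) / (1 - s * t) ^ 2) t :=
    contDiffAt_const.div (h2.pow 2) (pow_ne_zero 2 h)
  exact h1.mul h3

end Prof

/-- the derivative of the height function -/
theorem dd_P (p x : S4) (v : E5) : dd (fun z : S4 => ⟪(p : E5), (z : E5)⟫_ℝ) x v =
    ⟪(p : E5) - ⟪(p : E5), (x : E5)⟫_ℝ • (x : E5), v⟫_ℝ := by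
  rw [dd_inner, inner_sub_left, real_inner_smul_left]

theorem norm_proj (p x : S4) : ‖(p : E5) - ⟪(p : E5), (x : E5)⟫_ℝ • (x : E5)‖ ^ 2 =
    1 - ⟪(p : E5), (x : E5)⟫_ℝ ^ 2 := by
  have hpp : ⟪(p : E5), (p : E5)⟫_ℝ = 1 := by rw [real_inner_self_eq_norm_sq, S4_norm]; norm_num
  have hxx : ⟪(x : E5), (x : E5)⟫_ℝ = 1 := by rw [real_inner_self_eq_norm_sq, S4_norm]; norm_num
  rw [← real_inner_self_eq_norm_sq, inner_sub_left, inner_sub_right, inner_sub_right,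
    real_inner_smul_left, real_inner_smul_left, inner_smul_right, inner_smul_right, hpp, hxx,
    real_inner_comm (p : E5) (x : E5)]
  ring

theorem proj_le (v w : E5) (x : S4) : |⟪v, w⟫_ℝ - ⟪v, (x : E5)⟫_ℝ * ⟪(x : E5), w⟫_ℝ| ≤
    ‖v‖ * ‖w‖ := by
  have hxx : ⟪(x : E5), (x : E5)⟫_ℝ = 1 := by rw [real_inner_self_eq_norm_sq, S4_norm]; norm_num
  have h1 : ⟪v, w⟫_ℝ - ⟪v, (x : E5)⟫_ℝ * ⟪(x : E5), w⟫_ℝ =
      ⟪v - ⟪v, (x : E5)⟫_ℝ • (x : E5), w⟫_ℝ := by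
    rw [inner_sub_left, real_inner_smul_left]
  have h2 : ‖v - ⟪v, (x : E5)⟫_ℝ • (x : E5)‖ ^ 2 = ‖v‖ ^ 2 - ⟪v, (x : E5)⟫_ℝ ^ 2 := by
    rw [← real_inner_self_eq_norm_sq, ← real_inner_self_eq_norm_sq v, inner_sub_left,
      inner_sub_right, inner_sub_right,
      real_inner_smul_left, real_inner_smul_left, inner_smul_right, inner_smul_right, hxx,
      real_inner_comm v (x : E5)]
    ring
  have h3 : ‖v - ⟪v, (x : E5)⟫_ℝ • (x : E5)‖ ≤ ‖v‖ := by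
    apply le_of_sq_le_sq _ (norm_nonneg _)
    rw [h2]
    nlinarith [sq_nonneg ⟪v, (x : E5)⟫_ℝ]
  rw [h1]
  exact (abs_real_inner_le_norm _ _).trans (mul_le_mul_of_nonneg_right h3 (norm_nonneg _))

theorem dd_dd_P (p x : S4) (v w : E5) :
    |dd (fun z => dd (fun z : S4 => ⟪(p : E5), (z : E5)⟫_ℝ) z v) x w| ≤ 2 * ‖v‖ * ‖w‖ := by
  have h1 : (fun z : S4 => dd (fun z : S4 => ⟪(p : E5), (z : E5)⟫_ℝ) z v) =
      fun z : S4 => ⟪(p : E5), v⟫_ℝ - ⟪(p : E5), (z : E5)⟫_ℝ * ⟪v, (z : E5)⟫_ℝ := by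
    funext z
    rw [dd_inner, real_inner_comm v (z : E5)]
  rw [h1, dd_fun_sub (sm_const _) (sm_mul (sm_inner (p : E5)) (sm_inner v)), dd_const,
    dd_mul (sm_inner (p : E5)) (sm_inner v), dd_inner, dd_inner]
  have h2 := proj_le v w x
  have h3 := proj_le (p : E5) w x
  have h4 : |⟪(p : E5), (x : E5)⟫_ℝ| ≤ 1 := by
    have := abs_real_inner_le_norm (p : E5) (x : E5)
    rwa [S4_norm, S4_norm, mul_one] at this
  have h5 : |⟪v, (x : E5)⟫_ℝ| ≤ ‖v‖ := by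
    have := abs_real_inner_le_norm v (x : E5)
    rwa [S4_norm, mul_one] at this
  rw [S4_norm, one_mul] at h3
  rw [zero_sub, abs_neg]
  refine (abs_add_le _ _).trans ?_
  rw [abs_mul, abs_mul]
  have h6 : |⟪(p : E5), (x : E5)⟫_ℝ| * |⟪v, w⟫_ℝ - ⟪v, (x : E5)⟫_ℝ * ⟪(x : E5), w⟫_ℝ| ≤
      1 * (‖v‖ * ‖w‖) := mul_le_mul h4 h2 (abs_nonneg _) zero_le_one
  have h7 : |⟪v, (x : E5)⟫_ℝ| * |⟪(p : E5), w⟫_ℝ - ⟪(p : E5), (x : E5)⟫_ℝ * ⟪(x : E5), w⟫_ℝ| ≤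
      ‖v‖ * ‖w‖ := mul_le_mul h5 h3 (abs_nonneg _) (norm_nonneg _)
  linarith

/-- the numbers on the support -/
theorem support_bounds {s t : ℝ} (hs0 : 0 ≤ s) (hs1 : s < 1) (hu : 0 < 1 - s * t)
    (hρ : |rr s t| ≤ 2 / 5) : (1 - s ^ 2) / 2 ≤ 1 - s * t ∧ 1 - t ^ 2 ≤ 4 * (1 - s ^ 2) := by
  obtain ⟨u, hudef⟩ : ∃ u, u = 1 - s * t := ⟨_, rfl⟩
  obtain ⟨ρ, hρdef⟩ : ∃ ρ, ρ = rr s t := ⟨_, rfl⟩
  have h1 : ρ * u = t - s := by
    rw [hρdef, hudef]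
    unfold rr
    exact div_mul_cancel₀ _ hu.ne'
  rw [← hρdef] at hρ
  rw [← hudef] at hu ⊢
  obtain ⟨h2, h3⟩ := abs_le.1 hρ
  have h4 : u * (1 + s * ρ) = 1 - s ^ 2 := by
    have : u * (1 + s * ρ) = u + s * (ρ * u) := by ring
    rw [this, h1, hudef]
    ring
  have hU : 0 < 1 - s ^ 2 := by nlinarith
  have h5 : 3 / 5 ≤ 1 + s * ρ := by nlinarith
  have h6 : 1 + s * ρ ≤ 7 / 5 := by nlinarith
  have h7 : (1 - s ^ 2) / 2 ≤ u := by
    rw [← h4]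
    nlinarith
  have h8 : u ≤ 2 * (1 - s ^ 2) := by
    rw [← h4]
    nlinarith
  refine ⟨h7, ?_⟩
  have h9 : (1 - s ^ 2) * (1 - t ^ 2) = (1 - ρ ^ 2) * u ^ 2 := by
    have e1 : (1 - ρ ^ 2) * u ^ 2 = u ^ 2 - (ρ * u) ^ 2 := by ring
    rw [e1, h1, hudef]
    ring
  have h10 : (1 - ρ ^ 2) * u ^ 2 ≤ (2 * (1 - s ^ 2)) ^ 2 := by
    have : u ^ 2 ≤ (2 * (1 - s ^ 2)) ^ 2 := pow_le_pow_left₀ hu.le h8 2
    nlinarith [sq_nonneg (ρ * u)]
  have h11 : (1 - s ^ 2) * (1 - t ^ 2) ≤ (1 - s ^ 2) * (4 * (1 - s ^ 2)) := by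
    rw [h9]
    refine h10.trans (le_of_eq ?_)
    ring
  exact le_of_mul_le_mul_left h11 hU

/-- bounds for the bump function and its derivatives -/
theorem bump_bounds {β : ℝ → ℝ} (hβ : Bump β) : ∃ B : ℝ, 0 ≤ B ∧
    (∀ r, |β r| ≤ B) ∧ (∀ r, |deriv β r| ≤ B) ∧ (∀ r, |deriv (deriv β) r| ≤ B) ∧
    (∀ r, 2 / 5 < |r| → deriv β r = 0 ∧ deriv (deriv β) r = 0) := by
  obtain ⟨hsm, _, _, _, hz⟩ := hβ
  have h1 := cd_deriv hsm
  have h2 := cd_deriv h1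
  have hopen : IsOpen {r : ℝ | 2 / 5 < |r|} := isOpen_lt continuous_const continuous_abs
  have hz1 : ∀ r, 2 / 5 < |r| → deriv β r = 0 := by
    intro r hr
    have : β =ᶠ[𝓝 r] fun _ => 0 := by
      filter_upwards [hopen.mem_nhds hr] with y hy
      exact hz y (le_of_lt hy)
    rw [this.deriv_eq, deriv_const]
  have hz2 : ∀ r, 2 / 5 < |r| → deriv (deriv β) r = 0 := by
    intro r hr
    have : deriv β =ᶠ[𝓝 r] fun _ => 0 := by
      filter_upwards [hopen.mem_nhds hr] with y hy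
      exact hz1 y hy
    rw [this.deriv_eq, deriv_const]
  have hb : ∀ g : ℝ → ℝ, Continuous g → (∀ r, 2 / 5 < |r| → g r = 0) →
      ∃ B : ℝ, 0 ≤ B ∧ ∀ r, |g r| ≤ B := by
    intro g hg hg0
    obtain ⟨B, hB⟩ := (isCompact_Icc (a := (-(2 / 5) : ℝ)) (b := 2 / 5)).exists_bound_of_continuousOn
      hg.continuousOn
    refine ⟨max B 0, le_max_right _ _, fun r => ?_⟩
    by_cases hr : |r| ≤ 2 / 5
    · have := hB r ⟨(abs_le.1 hr).1, (abs_le.1 hr).2⟩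
      rw [Real.norm_eq_abs] at this
      exact this.trans (le_max_left _ _)
    · rw [hg0 r (not_le.1 hr), abs_zero]
      exact le_max_right _ _
  obtain ⟨B0, hB00, hB0⟩ := hb β hsm.continuous fun r hr => hz r hr.le
  obtain ⟨B1, hB10, hB1⟩ := hb (deriv β) h1.continuous hz1
  obtain ⟨B2, hB20, hB2⟩ := hb (deriv (deriv β)) h2.continuous hz2
  refine ⟨B0 + B1 + B2, by positivity, fun r => ?_, fun r => ?_, fun r => ?_,
    fun r hr => ⟨hz1 r hr, hz2 r hr⟩⟩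
  · linarith [hB0 r]
  · linarith [hB1 r]
  · linarith [hB2 r]

theorem F_bounds {β : ℝ → ℝ} {B : ℝ} (hB0 : 0 ≤ B) (hB1 : ∀ r, |deriv β r| ≤ B)
    (hB2 : ∀ r, |deriv (deriv β) r| ≤ B)
    (hz : ∀ r, 2 / 5 < |r| → deriv β r = 0 ∧ deriv (deriv β) r = 0)
    {s t : ℝ} (hs0 : 0 ≤ s) (hs1 : s < 1) (ht : t ^ 2 ≤ 1) :
    ∃ a b : ℝ, |F1 β s t| ≤ a ∧ |F2 β s t| ≤ b ∧
      a * √(1 - t ^ 2) ≤ 8 * B * (1 - s) ^ (-(1 / 2) : ℝ) ∧
      a * 2 + b * (1 - t ^ 2) ≤ 136 * B * (1 - s)⁻¹ := by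
  have hδ : 0 < 1 - s := by linarith
  have hst : s * t ≤ s := by
    have : t ≤ 1 := by nlinarith
    nlinarith
  have hu : 0 < 1 - s * t := by linarith
  by_cases hρ : |rr s t| ≤ 2 / 5
  · obtain ⟨h1, h2⟩ := support_bounds hs0 hs1 hu hρ
    obtain ⟨U, hU⟩ : ∃ U, U = 1 - s ^ 2 := ⟨_, rfl⟩
    obtain ⟨u, hudef⟩ : ∃ u, u = 1 - s * t := ⟨_, rfl⟩
    rw [← hU, ← hudef] at h1
    rw [← hU] at h2
    have hU0 : 0 < U := by rw [hU]; nlinarith
    have hUδ : 1 - s ≤ U := by rw [hU]; nlinarith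
    rw [← hudef] at hu
    have e1 : U / u ^ 2 ≤ 4 / U := by
      rw [div_le_div_iff₀ (by positivity) hU0]
      nlinarith
    have e2 : 2 * s * U / u ^ 3 ≤ 16 / U ^ 2 := by
      rw [div_le_div_iff₀ (by positivity) (by positivity)]
      have e3 : (U / 2) ^ 3 ≤ u ^ 3 := pow_le_pow_left₀ (by positivity) h1 3
      have e4 : s * U ^ 3 ≤ U ^ 3 := by
        have : 0 < U ^ 3 := by positivity
        nlinarith
      calc 2 * s * U * U ^ 2 = 2 * (s * U ^ 3) := by ring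
        _ ≤ 2 * U ^ 3 := by linarith
        _ = 16 * (U / 2) ^ 3 := by ring
        _ ≤ 16 * u ^ 3 := by linarith
    have e0 : 0 ≤ U / u ^ 2 := by positivity
    have e0' : 0 ≤ 2 * s * U / u ^ 3 := by positivity
    refine ⟨4 * B / U, 32 * B / U ^ 2, ?_, ?_, ?_, ?_⟩
    · unfold F1
      rw [abs_mul, ← hU, ← hudef, abs_of_nonneg e0]
      calc |deriv β (rr s t)| * (U / u ^ 2) ≤ B * (4 / U) :=
            mul_le_mul (hB1 _) e1 e0 hB0
        _ = 4 * B / U := by ring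
    · unfold F2
      rw [← hU, ← hudef]
      refine (abs_add_le _ _).trans ?_
      rw [abs_mul, abs_mul, abs_mul, abs_of_nonneg e0, abs_of_nonneg e0']
      have e5 : |deriv (deriv β) (rr s t)| * (U / u ^ 2) * (U / u ^ 2) ≤ B * (4 / U) * (4 / U) := by
        apply mul_le_mul _ e1 e0 (by positivity)
        exact mul_le_mul (hB2 _) e1 e0 hB0
      have e6 : |deriv β (rr s t)| * (2 * s * U / u ^ 3) ≤ B * (16 / U ^ 2) :=
        mul_le_mul (hB1 _) e2 e0' hB0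
      calc |deriv (deriv β) (rr s t)| * (U / u ^ 2) * (U / u ^ 2) +
          |deriv β (rr s t)| * (2 * s * U / u ^ 3) ≤ B * (4 / U) * (4 / U) + B * (16 / U ^ 2) :=
            add_le_add e5 e6
        _ = 32 * B / U ^ 2 := by
            field_simp
            ring
    · have h3 : √(1 - t ^ 2) ≤ 2 * √U := by
        have h4 : √(4 * U) = 2 * √U := by
          rw [Real.sqrt_mul (by norm_num), show (4 : ℝ) = 2 ^ 2 by norm_num,
            Real.sqrt_sq (by norm_num)]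
        rw [← h4]
        exact Real.sqrt_le_sqrt h2
      have h5 : (1 - s) ^ (-(1 / 2) : ℝ) = (√(1 - s))⁻¹ := by
        rw [Real.rpow_neg hδ.le, Real.sqrt_eq_rpow]
      have hsU : 0 < √U := Real.sqrt_pos.2 hU0
      have hsδ : 0 < √(1 - s) := Real.sqrt_pos.2 hδ
      have h6 : √(1 - s) ≤ √U := Real.sqrt_le_sqrt hUδ
      rw [h5]
      calc 4 * B / U * √(1 - t ^ 2) ≤ 4 * B / U * (2 * √U) :=
            mul_le_mul_of_nonneg_left h3 (by positivity)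
        _ = 8 * B * (√U)⁻¹ := by
            have h7 : U = √U * √U := (Real.mul_self_sqrt hU0.le).symm
            rw [div_mul_eq_mul_div, div_eq_iff hU0.ne']
            have h8 : 8 * B * (√U)⁻¹ * U = 8 * B * ((√U)⁻¹ * U) := by ring
            rw [h8]
            have h9 : (√U)⁻¹ * U = √U := by
              nth_rewrite 2 [h7]
              rw [← mul_assoc, inv_mul_cancel₀ hsU.ne', one_mul]
            rw [h9]
            ring
        _ ≤ 8 * B * (√(1 - s))⁻¹ :=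
            mul_le_mul_of_nonneg_left (inv_anti₀ hsδ h6) (by positivity)
    · have h7 : 32 * B / U ^ 2 * (1 - t ^ 2) ≤ 32 * B / U ^ 2 * (4 * U) :=
        mul_le_mul_of_nonneg_left h2 (by positivity)
      have h8 : U⁻¹ ≤ (1 - s)⁻¹ := inv_anti₀ hδ hUδ
      calc 4 * B / U * 2 + 32 * B / U ^ 2 * (1 - t ^ 2) ≤
          4 * B / U * 2 + 32 * B / U ^ 2 * (4 * U) := by linarith
        _ = 136 * B * U⁻¹ := by
            field_simp
            ring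
        _ ≤ 136 * B * (1 - s)⁻¹ := mul_le_mul_of_nonneg_left h8 (by positivity)
  · obtain ⟨h1, h2⟩ := hz _ (not_le.1 hρ)
    refine ⟨0, 0, ?_, ?_, ?_, ?_⟩
    · unfold F1
      rw [h1, zero_mul, abs_zero]
    · unfold F2
      rw [h1, h2]
      simp
    · rw [zero_mul]
      positivity
    · rw [zero_mul, zero_mul, add_zero]
      positivity

theorem der : DerStmt := by
  intro p β hβ
  have hsm := hβ.1
  obtain ⟨B, hB0, hBb, hB1, hB2, hz⟩ := bump_bounds hβ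
  refine ⟨136 * B, by positivity, fun s hs0 hs1 => ?_⟩
  have hδ : 0 < 1 - s := by linarith
  have habs : ∀ z : S4, |⟪(p : E5), (z : E5)⟫_ℝ| ≤ 1 := by
    intro z
    have := abs_real_inner_le_norm (p : E5) (z : E5)
    rwa [S4_norm, S4_norm, mul_one] at this
  have hne : ∀ z : S4, 1 - s * ⟪(p : E5), (z : E5)⟫_ℝ ≠ 0 := by
    intro z
    have h1 := (abs_le.1 (habs z)).2
    have : s * ⟪(p : E5), (z : E5)⟫_ℝ ≤ s := by nlinarith
    linarith
  have hFb : Fb β p s = fun z : S4 => (fun t => β (rr s t)) ⟪(p : E5), (z : E5)⟫_ℝ := rfl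
  have hSm : Sm (Fb β p s) := by
    rw [hFb]
    exact sm_comp_at (sm_inner (p : E5)) fun z => contDiffAt_prof hsm (hne z)
  have hdd : ∀ (z : S4) (v : E5), dd (Fb β p s) z v =
      F1 β s ⟪(p : E5), (z : E5)⟫_ℝ * dd (fun z : S4 => ⟪(p : E5), (z : E5)⟫_ℝ) z v := by
    intro z v
    rw [hFb]
    exact dd_comp_at (sm_inner (p : E5)) (hasDerivAt_prof hsm (hne z)) v
  refine ⟨hSm, fun x v w => ?_⟩
  obtain ⟨t, ht⟩ : ∃ t, t = ⟪(p : E5), (x : E5)⟫_ℝ := ⟨_, rfl⟩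
  have ht2 : t ^ 2 ≤ 1 := by
    rw [ht, ← sq_abs]
    have h1 := habs x
    have h2 := abs_nonneg ⟪(p : E5), (x : E5)⟫_ℝ
    nlinarith
  obtain ⟨a, b, ha, hb, hab1, hab2⟩ := F_bounds hB0 hB1 hB2 hz hs0 hs1 ht2
  have ha0 : 0 ≤ a := (abs_nonneg _).trans ha
  have hb0 : 0 ≤ b := (abs_nonneg _).trans hb
  have hP : ∀ v : E5, |dd (fun z : S4 => ⟪(p : E5), (z : E5)⟫_ℝ) x v| ≤ √(1 - t ^ 2) * ‖v‖ := by
    intro v
    rw [dd_P]
    refine (abs_real_inner_le_norm _ _).trans ?_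
    apply mul_le_mul_of_nonneg_right _ (norm_nonneg _)
    apply Real.le_sqrt_of_sq_le
    rw [norm_proj, ht]
  have hrp : 0 ≤ (1 - s) ^ (-(1 / 2) : ℝ) := by positivity
  refine ⟨?_, ?_, ?_⟩
  · have : |Fb β p s x| ≤ B := hBb _
    nlinarith
  · rw [hdd, abs_mul, ← ht]
    calc |F1 β s t| * |dd (fun z : S4 => ⟪(p : E5), (z : E5)⟫_ℝ) x v| ≤
        a * (√(1 - t ^ 2) * ‖v‖) := mul_le_mul ha (hP v) (abs_nonneg _) ha0
      _ = a * √(1 - t ^ 2) * ‖v‖ := by ring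
      _ ≤ 8 * B * (1 - s) ^ (-(1 / 2) : ℝ) * ‖v‖ :=
        mul_le_mul_of_nonneg_right hab1 (norm_nonneg _)
      _ ≤ 136 * B * (1 - s) ^ (-(1 / 2) : ℝ) * ‖v‖ := by
        apply mul_le_mul_of_nonneg_right _ (norm_nonneg _)
        apply mul_le_mul_of_nonneg_right _ hrp
        linarith
  · have h1 : (fun z => dd (Fb β p s) z v) = fun z : S4 =>
        F1 β s ⟪(p : E5), (z : E5)⟫_ℝ * dd (fun z : S4 => ⟪(p : E5), (z : E5)⟫_ℝ) z v := by
      funext z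
      exact hdd z v
    have hs1' : Sm (fun z : S4 => F1 β s ⟪(p : E5), (z : E5)⟫_ℝ) :=
      sm_comp_at (sm_inner (p : E5)) fun z => contDiffAt_F1 hsm (hne z)
    have h2 : dd (fun z : S4 => F1 β s ⟪(p : E5), (z : E5)⟫_ℝ) x w =
        F2 β s ⟪(p : E5), (x : E5)⟫_ℝ * dd (fun z : S4 => ⟪(p : E5), (z : E5)⟫_ℝ) x w :=
      dd_comp_at (sm_inner (p : E5)) (hasDerivAt_F1 hsm (hne x)) w
    rw [h1, dd_mul hs1' (sm_dd (sm_inner (p : E5)) v), h2, ← ht]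
    refine (abs_add_le _ _).trans ?_
    rw [abs_mul, abs_mul, abs_mul]
    have h3 : |F1 β s t| * |dd (fun z => dd (fun z : S4 => ⟪(p : E5), (z : E5)⟫_ℝ) z v) x w| ≤
        a * (2 * ‖v‖ * ‖w‖) := mul_le_mul ha (dd_dd_P p x v w) (abs_nonneg _) ha0
    have h4 : |dd (fun z : S4 => ⟪(p : E5), (z : E5)⟫_ℝ) x v| *
        (|F2 β s t| * |dd (fun z : S4 => ⟪(p : E5), (z : E5)⟫_ℝ) x w|) ≤
        (√(1 - t ^ 2) * ‖v‖) * (b * (√(1 - t ^ 2) * ‖w‖)) := by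
      apply mul_le_mul (hP v) _ (by positivity) (by positivity)
      exact mul_le_mul hb (hP w) (abs_nonneg _) hb0
    have h5 : (√(1 - t ^ 2) * ‖v‖) * (b * (√(1 - t ^ 2) * ‖w‖)) =
        b * (1 - t ^ 2) * (‖v‖ * ‖w‖) := by
      have h6 : √(1 - t ^ 2) * √(1 - t ^ 2) = 1 - t ^ 2 := Real.mul_self_sqrt (by linarith)
      calc (√(1 - t ^ 2) * ‖v‖) * (b * (√(1 - t ^ 2) * ‖w‖)) =
          b * (√(1 - t ^ 2) * √(1 - t ^ 2)) * (‖v‖ * ‖w‖) := by ring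
        _ = _ := by rw [h6]
    calc _ ≤ a * (2 * ‖v‖ * ‖w‖) + b * (1 - t ^ 2) * (‖v‖ * ‖w‖) := by
          rw [← h5]
          exact add_le_add h3 h4
      _ = (a * 2 + b * (1 - t ^ 2)) * (‖v‖ * ‖w‖) := by ring
      _ ≤ 136 * B * (1 - s)⁻¹ * (‖v‖ * ‖w‖) :=
        mul_le_mul_of_nonneg_right hab2 (by positivity)
      _ = 136 * B * (1 - s)⁻¹ * ‖v‖ * ‖w‖ := by ring

end Pool.Agent.FLX.H59
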