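import Pool.Agent.FLX.Stmts

/-!
# HOL: Hoelder norms of the moved bump functions
-/

set_option autoImplicit false

open scoped InnerProductSpace Topology ContDiff Manifold
open MeasureTheory Filter Set

noncomputable section

namespace Pool.Agent.FLX.H59

open Pool.Agent.Helper42_Paneitz Pool.Agent.Helper82_Vir

theorem interpol {D A B d α : ℝ} (hD : 0 ≤ D) (hA : D ≤ A) (hB : D ≤ B * d) (hB0 : 0 ≤ B)
    (hd : 0 ≤ d) (hα0 : 0 ≤ α) (hα1 : α ≤ 1) : D ≤ A ^ (1 - α) * B ^ α * d ^ α := by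
  have hA0 : 0 ≤ A := hD.trans hA
  have h1 : D = D ^ (1 - α) * D ^ α := by
    rw [← Real.rpow_add_of_nonneg hD (by linarith) hα0, sub_add_cancel, Real.rpow_one]
  have h2 : D ^ (1 - α) ≤ A ^ (1 - α) := Real.rpow_le_rpow hD hA (by linarith)
  have h3 : D ^ α ≤ (B * d) ^ α := Real.rpow_le_rpow hD hB hα0
  rw [Real.mul_rpow hB0 hd] at h3
  calc D = D ^ (1 - α) * D ^ α := h1
    _ ≤ A ^ (1 - α) * (B ^ α * d ^ α) :=
      mul_le_mul h2 h3 (Real.rpow_nonneg hD _) (Real.rpow_nonneg hA0 _)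
    _ = _ := by ring

theorem hol (der : DerStmt) (lip : LipStmt) : HolStmt := by
  intro p β hβ
  obtain ⟨C, hC0, hC⟩ := der p β hβ
  refine ⟨2 * C, by positivity, ?_⟩
  intro α s hα0 hα1 hs0 hs1 x y v
  obtain ⟨hSm, hb⟩ := hC s hs0 hs1
  obtain ⟨δ, hδdef⟩ : ∃ δ, δ = 1 - s := ⟨_, rfl⟩
  rw [← hδdef] at hb ⊢
  have hδ : 0 < δ := by linarith
  have hδ1 : δ ≤ 1 := by linarith
  have hexp : δ ^ (-(1 / 2) : ℝ) ≤ δ ^ (-((1 + α) / 2)) :=
    Real.rpow_le_rpow_of_exponent_ge hδ hδ1 (by linarith)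
  have hexp0 : 1 ≤ δ ^ (-((1 + α) / 2)) :=
    Real.one_le_rpow_of_pos_of_le_one_of_nonpos hδ hδ1 (by linarith)
  have hvn := norm_nonneg v
  have hdist : 0 ≤ dist x y := dist_nonneg
  refine ⟨?_, ?_, ?_⟩
  · have h1 := (hb x 0 0).1
    nlinarith
  · have h1 := (hb x v 0).2.1
    have hr0 : 0 ≤ δ ^ (-(1 / 2) : ℝ) := by positivity
    calc |dd (Fb β p s) x v| ≤ C * δ ^ (-(1 / 2) : ℝ) * ‖v‖ := h1
      _ ≤ 2 * C * δ ^ (-((1 + α) / 2)) * ‖v‖ := by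
        apply mul_le_mul_of_nonneg_right _ hvn
        apply mul_le_mul _ hexp hr0 (by positivity)
        linarith
  · have h1 := (hb x v 0).2.1
    have h2 := (hb y v 0).2.1
    have h3 : |dd (Fb β p s) x v - dd (Fb β p s) y v| ≤ 2 * C * ‖v‖ * δ ^ (-(1 / 2) : ℝ) := by
      refine (abs_sub _ _).trans ?_
      calc |dd (Fb β p s) x v| + |dd (Fb β p s) y v| ≤
          C * δ ^ (-(1 / 2) : ℝ) * ‖v‖ + C * δ ^ (-(1 / 2) : ℝ) * ‖v‖ := add_le_add h1 h2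
        _ = _ := by ring
    have h4 := lip (Fb β p s) (C * δ⁻¹) hSm (by positivity) (fun x v w => (hb x v w).2.2) x y v
    have h5 : 2 * (C * δ⁻¹) * ‖v‖ * dist x y = (2 * C * ‖v‖ * δ⁻¹) * dist x y := by ring
    rw [h5] at h4
    have h6 := interpol (abs_nonneg _) h3 h4 (by positivity) hdist hα0 hα1
    refine h6.trans (le_of_eq ?_)
    obtain ⟨K, hK⟩ : ∃ K, K = 2 * C * ‖v‖ := ⟨_, rfl⟩
    have hK0 : 0 ≤ K := by rw [hK]; positivity
    rw [← hK, Real.mul_rpow hK0 (by positivity), Real.mul_rpow hK0 (by positivity)]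
    have h7 : K ^ (1 - α) * K ^ α = K := by
      rw [← Real.rpow_add_of_nonneg hK0 (by linarith) hα0, sub_add_cancel, Real.rpow_one]
    have h8 : (δ ^ (-(1 / 2) : ℝ)) ^ (1 - α) * (δ⁻¹) ^ α = δ ^ (-((1 + α) / 2)) := by
      rw [← Real.rpow_neg_one, ← Real.rpow_mul hδ.le, ← Real.rpow_mul hδ.le, ← Real.rpow_add hδ]
      congr 1
      ring
    calc K ^ (1 - α) * (δ ^ (-(1 / 2) : ℝ)) ^ (1 - α) * (K ^ α * δ⁻¹ ^ α) * dist x y ^ α =
        (K ^ (1 - α) * K ^ α) * ((δ ^ (-(1 / 2) : ℝ)) ^ (1 - α) * (δ⁻¹) ^ α) * dist x y ^ α := by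
          ring
      _ = K * δ ^ (-((1 + α) / 2)) * dist x y ^ α := by rw [h7, h8]
      _ = 2 * C * δ ^ (-((1 + α) / 2)) * ‖v‖ * dist x y ^ α := by
          rw [hK]
          ring

end Pool.Agent.FLX.H59
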