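import Pool.Agent.FLX.Stmts

/-!
# LIP: Lipschitz bound along great circles
-/

set_option autoImplicit false

open scoped InnerProductSpace Topology ContDiff Manifold
open MeasureTheory Filter Set

noncomputable section

namespace Pool.Agent.FLX.H59

open Pool.Agent.Helper42_Paneitz Pool.Agent.Helper82_Vir

/-- a unit vector orthogonal to a point of the sphere -/
theorem exists_orth (x : S4) : ∃ e : E5, ‖e‖ = 1 ∧ ⟪(x : E5), e⟫_ℝ = 0 := by
  by_cases h : (x : E5) 0 = 0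
  · exact ⟨ee 0, norm_ee 0, by rw [inner_ee, h]⟩
  · set v : E5 := (x : E5) 1 • ee 0 - (x : E5) 0 • ee 1 with hv
    have h1 : ⟪(x : E5), v⟫_ℝ = 0 := by
      rw [hv, inner_sub_right, inner_smul_right, inner_smul_right, inner_ee, inner_ee]
      ring
    have h2 : v ≠ 0 := by
      intro h0
      have h3 : v 1 = -(x : E5) 0 := by
        rw [hv]
        simp
      rw [h0] at h3
      apply h
      have h4 : (0 : E5) 1 = 0 := rfl
      rw [h4] at h3
      linarith
    have h3 : ‖v‖ ≠ 0 := norm_ne_zero_iff.2 h2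
    refine ⟨‖v‖⁻¹ • v, ?_, ?_⟩
    · rw [norm_smul, norm_inv, norm_norm, inv_mul_cancel₀ h3]
    · rw [inner_smul_right, h1, mul_zero]

/-- great circles -/
theorem great_circle (x y : S4) : ∃ (e : E5) (θ : ℝ), ‖e‖ = 1 ∧ ⟪(x : E5), e⟫_ℝ = 0 ∧ 0 ≤ θ ∧
    θ ≤ Real.pi ∧ (y : E5) = Real.cos θ • (x : E5) + Real.sin θ • e := by
  obtain ⟨c, hc⟩ : ∃ c : ℝ, c = ⟪(x : E5), (y : E5)⟫_ℝ := ⟨_, rfl⟩
  have hx := S4_norm x
  have hy := S4_norm y
  have hxx : ⟪(x : E5), (x : E5)⟫_ℝ = 1 := by rw [real_inner_self_eq_norm_sq, hx]; norm_num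
  have hyy : ⟪(y : E5), (y : E5)⟫_ℝ = 1 := by rw [real_inner_self_eq_norm_sq, hy]; norm_num
  have hyx : ⟪(y : E5), (x : E5)⟫_ℝ = c := by rw [real_inner_comm, hc]
  have habs : |c| ≤ 1 := by
    have := abs_real_inner_le_norm (x : E5) (y : E5)
    rw [hx, hy, mul_one, ← hc] at this
    exact this
  obtain ⟨hc1, hc2⟩ := abs_le.1 habs
  set w : E5 := (y : E5) - c • (x : E5) with hw
  have hwx : ⟪(x : E5), w⟫_ℝ = 0 := by
    rw [hw, inner_sub_right, inner_smul_right, hxx, ← hc]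
    ring
  have hww : ‖w‖ ^ 2 = 1 - c ^ 2 := by
    rw [← real_inner_self_eq_norm_sq, hw, inner_sub_left, inner_sub_right, inner_sub_right,
      real_inner_smul_left, real_inner_smul_left, inner_smul_right, inner_smul_right, hxx, hyy, hyx,
      ← hc]
    ring
  have hθ : Real.cos (Real.arccos c) = c := Real.cos_arccos hc1 hc2
  have hsθ : Real.sin (Real.arccos c) = ‖w‖ := by
    rw [Real.sin_arccos, ← hww, Real.sqrt_sq (norm_nonneg _)]
  by_cases hw0 : ‖w‖ = 0
  · obtain ⟨e, he1, he2⟩ := exists_orth x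
    refine ⟨e, Real.arccos c, he1, he2, Real.arccos_nonneg c, Real.arccos_le_pi c, ?_⟩
    rw [hθ, hsθ, hw0, zero_smul, add_zero]
    exact sub_eq_zero.1 (norm_eq_zero.1 hw0)
  · refine ⟨‖w‖⁻¹ • w, Real.arccos c, ?_, ?_, Real.arccos_nonneg c, Real.arccos_le_pi c, ?_⟩
    · rw [norm_smul, norm_inv, norm_norm, inv_mul_cancel₀ hw0]
    · rw [inner_smul_right, hwx, mul_zero]
    · rw [hθ, hsθ, smul_smul, mul_inv_cancel₀ hw0, one_smul, hw]
      abel

theorem angle_le {x y : S4} {e : E5} {θ : ℝ} (he : ⟪(x : E5), e⟫_ℝ = 0)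
    (h0 : 0 ≤ θ) (hπ : θ ≤ Real.pi) (hy : (y : E5) = Real.cos θ • (x : E5) + Real.sin θ • e) :
    θ ≤ 2 * ‖(x : E5) - (y : E5)‖ := by
  have h1 : ‖(x : E5) - (y : E5)‖ ^ 2 = 2 * (1 - ⟪(x : E5), (y : E5)⟫_ℝ) := by
    rw [norm_sub_sq_real, S4_norm, S4_norm]
    ring
  have hxx : ⟪(x : E5), (x : E5)⟫_ℝ = 1 := by rw [real_inner_self_eq_norm_sq, S4_norm]; norm_num
  have h2 : ⟪(x : E5), (y : E5)⟫_ℝ = Real.cos θ := by
    rw [hy, inner_add_right, inner_smul_right, inner_smul_right, he, hxx]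
    ring
  rw [h2] at h1
  have h3 : Real.cos θ = 1 - 2 * Real.sin (θ / 2) ^ 2 := by
    have := Real.cos_sq' (θ / 2)
    have h4 := Real.cos_two_mul (θ / 2)
    rw [show 2 * (θ / 2) = θ by ring] at h4
    rw [h4, this]
    ring
  have h5 : ‖(x : E5) - (y : E5)‖ ^ 2 = (2 * Real.sin (θ / 2)) ^ 2 := by
    rw [h1, h3]
    ring
  have hs := Real.mul_le_sin (x := θ / 2) (by linarith) (by linarith)
  have hpi := Real.pi_le_four
  have hpi0 := Real.pi_pos
  have h6 : θ / 4 ≤ Real.sin (θ / 2) := by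
    refine le_trans ?_ hs
    rw [div_mul_eq_mul_div, le_div_iff₀ hpi0]
    nlinarith
  have h7 : ‖(x : E5) - (y : E5)‖ = 2 * Real.sin (θ / 2) := by
    have h8 : 0 ≤ 2 * Real.sin (θ / 2) := by linarith
    have := congrArg Real.sqrt h5
    rwa [Real.sqrt_sq (norm_nonneg _), Real.sqrt_sq h8] at this
  rw [h7]
  linarith

theorem lip_gen {g : S4 → ℝ} (hg : Sm g) {A : ℝ} (hA0 : 0 ≤ A)
    (hA : ∀ (x : S4) (w : E5), |dd g x w| ≤ A * ‖w‖) (x y : S4) :
    |g x - g y| ≤ 2 * A * ‖(x : E5) - (y : E5)‖ := by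
  obtain ⟨e, θ, he, hxe, hθ0, hθπ, hy⟩ := great_circle x y
  have hxx : ⟪(x : E5), (x : E5)⟫_ℝ = 1 := by rw [real_inner_self_eq_norm_sq, S4_norm]; norm_num
  have hee : ⟪e, e⟫_ℝ = 1 := by rw [real_inner_self_eq_norm_sq, he]; norm_num
  have hex : ⟪e, (x : E5)⟫_ℝ = 0 := by rw [real_inner_comm]; exact hxe
  have hnorm : ∀ a b : ℝ, a ^ 2 + b ^ 2 = 1 → ‖a • (x : E5) + b • e‖ = 1 := by
    intro a b hab
    have h1 : ‖a • (x : E5) + b • e‖ ^ 2 = 1 := by
      rw [← real_inner_self_eq_norm_sq, inner_add_left, inner_add_right, inner_add_right,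
        real_inner_smul_left, real_inner_smul_left, real_inner_smul_left, real_inner_smul_left,
        inner_smul_right, inner_smul_right, inner_smul_right, inner_smul_right, hxx, hee, hxe, hex]
      linarith
    have := congrArg Real.sqrt h1
    rwa [Real.sqrt_sq (norm_nonneg _), Real.sqrt_one] at this
  set c : ℝ → E5 := fun t => Real.cos t • (x : E5) + Real.sin t • e with hcdef
  have hc1 : ∀ t, ‖c t‖ = 1 := fun t => hnorm _ _ (Real.cos_sq_add_sin_sq t)
  set pt : ℝ → S4 := fun t => ⟨c t, mem_sphere_zero_iff_norm.2 (hc1 t)⟩ with hpt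
  set c' : ℝ → E5 := fun t => (-Real.sin t) • (x : E5) + Real.cos t • e with hc'def
  have hc'1 : ∀ t, ‖c' t‖ = 1 := fun t => hnorm _ _ (by rw [neg_sq]; exact Real.sin_sq_add_cos_sq t)
  have hder : ∀ t, HasDerivAt c (c' t) t := by
    intro t
    exact ((Real.hasDerivAt_cos t).smul_const (x : E5)).add
      ((Real.hasDerivAt_sin t).smul_const e)
  have hφ : ∀ t, HasDerivAt (fun t => radialExt g (c t)) (dd g (pt t) (c' t)) t := fun t =>
    hasDerivAt_along hg rfl (hder t)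
  have hmv := norm_image_sub_le_of_norm_deriv_le_segment' (f := fun t => radialExt g (c t))
    (f' := fun t => dd g (pt t) (c' t)) (C := A) (a := 0) (b := θ)
    (fun t _ => (hφ t).hasDerivWithinAt) (fun t _ => by
      rw [Real.norm_eq_abs]
      have := hA (pt t) (c' t)
      rwa [hc'1, mul_one] at this) θ ⟨hθ0, le_rfl⟩
  have hc0 : c 0 = (x : E5) := by
    rw [hcdef]
    simp
  have hcθ : c θ = (y : E5) := hy.symm
  have hmv' : |g y - g x| ≤ A * θ := by
    have h1 : radialExt g (c θ) = g y := by rw [hcθ, radialExt_coe]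
    have h2 : radialExt g (c 0) = g x := by rw [hc0, radialExt_coe]
    have h3 : ‖radialExt g (c θ) - radialExt g (c 0)‖ ≤ A * (θ - 0) := hmv
    rwa [h1, h2, sub_zero, Real.norm_eq_abs] at h3
  rw [abs_sub_comm]
  refine hmv'.trans ?_
  have hang := angle_le (y := y) hxe hθ0 hθπ hy
  calc A * θ ≤ A * (2 * ‖(x : E5) - (y : E5)‖) := mul_le_mul_of_nonneg_left hang hA0
    _ = 2 * A * ‖(x : E5) - (y : E5)‖ := by ring

theorem lip : LipStmt := by
  intro F B hF hB h x y v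
  have h1 := lip_gen (sm_dd hF v) (A := B * ‖v‖) (by positivity) (fun x w => h x v w) x y
  have h2 : dist x y = ‖(x : E5) - (y : E5)‖ := by
    rw [Subtype.dist_eq, dist_eq_norm]
  rw [h2]
  refine h1.trans (le_of_eq ?_)
  ring

end Pool.Agent.FLX.H59
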